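import Pool.Agent.H24.RSM.Stmts

/-!
# Project RSM, module LOW: lowest terms
-/

set_option autoImplicit false

open MvPolynomial

namespace Pool.Agent.H97.RSM

open Pool.Agent.H24.RSM

/-! ### A divisibility lemma -/

theorem exists_common {R ι : Type} [CommRing R] [IsDomain R] [UniqueFactorizationMonoid R]
    [Fintype ι] (P Q : ι → R) (h : ∀ i j, P i * Q j = P j * Q i)
    (hQ : ∀ a : R, (∀ i, a ∣ Q i) → IsUnit a) : ∃ k, ∀ i, P i = k * Q i := by
  classical
  have h0 : ∃ i, Q i ≠ 0 := by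
    by_contra hcon
    have h1 : ∀ i, Q i = 0 := fun i => by
      by_contra h2
      exact hcon ⟨i, h2⟩
    exact not_isUnit_zero (hQ 0 fun i => by rw [h1 i])
  obtain ⟨i, hi⟩ := h0
  let _ : StrongNormalizationMonoid R := UniqueFactorizationMonoid.strongNormalizationMonoid
  let _ : NormalizedGCDMonoid R := UniqueFactorizationMonoid.toNormalizedGCDMonoid R
  have h1 : Q i ∣ (Finset.univ : Finset ι).gcd fun j => P i * Q j := by
    apply Finset.dvd_gcd
    intro j _
    exact ⟨P j, by rw [h i j]; ring⟩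
  have h2 : Q i ∣ P i * (Finset.univ : Finset ι).gcd Q :=
    (Finset.gcd_mul_left' (s := Finset.univ) (f := Q) (P i)).dvd_iff_dvd_right.mp h1
  have h3 : IsUnit ((Finset.univ : Finset ι).gcd Q) :=
    hQ _ fun j => Finset.gcd_dvd (Finset.mem_univ j)
  have h4 : Q i ∣ P i := (h3.dvd_mul_right).mp h2
  obtain ⟨k, hk⟩ := h4
  refine ⟨k, fun j => ?_⟩
  have h5 := h i j
  rw [hk] at h5
  have h6 : Q i * (P j - k * Q j) = 0 := by linear_combination -h5
  rcases mul_eq_zero.mp h6 with h7 | h7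
  · exact absurd h7 hi
  · exact sub_eq_zero.mp h7

/-! ### Linear functionals on `E N × ℂ` -/

/-- The coordinates. -/
noncomputable def co (N : ℕ) : Option (Fin N) → ((E N × ℂ) →ₗ[ℂ] ℂ)
  | none => LinearMap.snd ℂ (E N) ℂ
  | some i =>
    { toFun := fun x => x.1 i
      map_add' := fun _ _ => rfl
      map_smul' := fun _ _ => rfl }

theorem co_none {N : ℕ} (x : E N × ℂ) : co N none x = x.2 := rfl

theorem co_some {N : ℕ} (i : Fin N) (x : E N × ℂ) : co N (some i) x = x.1 i := rfl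

/-- The basis vectors. -/
noncomputable def ba (N : ℕ) : Option (Fin N) → E N × ℂ
  | none => (0, 1)
  | some i => (EuclideanSpace.single i 1, 0)

theorem dec {N : ℕ} (φ : (E N × ℂ) →ₗ[ℂ] ℂ) (x : E N × ℂ) :
    φ x = ∑ i, co N i x * φ (ba N i) := by
  have h1 : x = ∑ i, co N i x • ba N i := by
    rw [Fintype.sum_option]
    apply Prod.ext
    · ext j
      simp [co_none, co_some, ba, Prod.fst_sum, Pi.single_apply]
    · simp [co_none, co_some, ba, Prod.snd_sum]
  conv_lhs => rw [h1]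
  rw [map_sum]
  simp only [map_smul, smul_eq_mul]

theorem dec' {N : ℕ} (φ : (E N × ℂ) →ₗ[ℂ] ℂ) : φ = ∑ i, φ (ba N i) • co N i := by
  apply LinearMap.ext
  intro x
  rw [dec φ x]
  simp [LinearMap.sum_apply, mul_comm]

/-! ### Combinations of polynomials -/

variable {n N : ℕ}

/-- The combination of the polynomials `F i` given by the functional `φ`. -/
noncomputable def comb (F : Option (Fin N) → MvPolynomial (Fin n) ℂ) :
    ((E N × ℂ) →ₗ[ℂ] ℂ) →ₗ[ℂ] MvPolynomial (Fin n) ℂ where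
  toFun φ := ∑ i, φ (ba N i) • F i
  map_add' φ ψ := by
    simp only [LinearMap.add_apply, add_smul, Finset.sum_add_distrib]
  map_smul' a φ := by
    simp only [LinearMap.smul_apply, smul_assoc, Finset.smul_sum, RingHom.id_apply]

theorem comb_apply (F : Option (Fin N) → MvPolynomial (Fin n) ℂ) (φ : (E N × ℂ) →ₗ[ℂ] ℂ) :
    comb F φ = ∑ i, φ (ba N i) • F i := rfl

theorem ev_comb (F : Option (Fin N) → MvPolynomial (Fin n) ℂ) (φ : (E N × ℂ) →ₗ[ℂ] ℂ)
    (z : E n) (x : E N × ℂ) (hx : ∀ i, co N i x = ev z (F i)) : ev z (comb F φ) = φ x := by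
  rw [dec φ x, comb_apply]
  unfold ev
  rw [map_sum]
  apply Finset.sum_congr rfl
  intro i _
  rw [hx i, smul_eval, mul_comm]
  rfl

theorem co_ba (i j : Option (Fin N)) : co N i (ba N j) = if i = j then 1 else 0 := by
  cases i <;> cases j <;> simp [co_none, co_some, ba]

theorem comb_co (F : Option (Fin N) → MvPolynomial (Fin n) ℂ) (i : Option (Fin N)) :
    comb F (co N i) = F i := by
  rw [comb_apply]
  simp [co_ba]

/-- If the combinations of the coordinates of an invertible map lie in a submodule, then the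
polynomials lie in it. -/
theorem comb_mem (F : Option (Fin N) → MvPolynomial (Fin n) ℂ)
    (S : Submodule ℂ (MvPolynomial (Fin n) ℂ)) (A A' : (E N × ℂ) →ₗ[ℂ] (E N × ℂ))
    (hA : ∀ x, A' (A x) = x) (h : ∀ i, comb F ((co N i) ∘ₗ A) ∈ S) (i : Option (Fin N)) :
    F i ∈ S := by
  have h1 : co N i = ((co N i) ∘ₗ A') ∘ₗ A := by
    apply LinearMap.ext
    intro x
    simp [hA]
  have h2 : co N i = ∑ j, ((co N i) ∘ₗ A') (ba N j) • ((co N j) ∘ₗ A) := by
    conv_lhs => rw [h1, dec' ((co N i) ∘ₗ A')]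
    apply LinearMap.ext
    intro x
    simp [LinearMap.sum_apply]
  rw [← comb_co F i, h2, map_sum]
  apply Submodule.sum_mem
  intro j _
  rw [map_smul]
  exact S.smul_mem _ (h j)

/-! ### Affine polynomials and substitution -/

/-- The affine polynomial `z ↦ φ (z, 1)`. -/
noncomputable def aff (φ : (E n × ℂ) →ₗ[ℂ] ℂ) : MvPolynomial (Fin n) ℂ :=
  comb (fun i : Option (Fin n) => i.elim 1 X) φ

theorem ev_aff (φ : (E n × ℂ) →ₗ[ℂ] ℂ) (z : E n) : ev z (aff φ) = φ (z, 1) := by
  apply ev_comb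
  intro i
  cases i
  · simp [co_none, ev]
  · simp [co_some, ev]

theorem deg_aff (φ : (E n × ℂ) →ₗ[ℂ] ℂ) : (aff φ).totalDegree ≤ 1 := by
  rw [← mem_restrictTotalDegree, aff, comb_apply]
  apply Submodule.sum_mem
  intro i _
  apply Submodule.smul_mem
  rw [mem_restrictTotalDegree]
  cases i
  · simp
  · simp

/-- Homogenisation of degree `d` followed by substitution of `L`, `l`. -/
noncomputable def til (d : ℕ) (L : Fin n → MvPolynomial (Fin n) ℂ) (l : MvPolynomial (Fin n) ℂ)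
    (P : MvPolynomial (Fin n) ℂ) : MvPolynomial (Fin n) ℂ :=
  ∑ α ∈ P.support, (coeff α P) • (l ^ (d - ∑ i, α i) * ∏ i, L i ^ α i)

theorem deg_le {P : MvPolynomial (Fin n) ℂ} {d : ℕ} (h : P.totalDegree ≤ d) {α : Fin n →₀ ℕ}
    (hα : α ∈ P.support) : ∑ i, α i ≤ d := by
  have h1 := le_totalDegree hα
  rw [Finsupp.sum_fintype _ _ (fun _ => rfl)] at h1
  exact h1.trans h

theorem ev_til {d : ℕ} {L : Fin n → MvPolynomial (Fin n) ℂ} {l P : MvPolynomial (Fin n) ℂ}
    (hP : P.totalDegree ≤ d) (z w : E n) (h : ∀ i, ev z (L i) = w i * ev z l) :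
    ev z (til d L l P) = (ev z l) ^ d * ev w P := by
  unfold til
  have h1 : ev w P = ∑ α ∈ P.support, coeff α P * ∏ i, w i ^ α i := by
    unfold ev
    rw [eval_eq']
  rw [h1, Finset.mul_sum]
  have h2 : ev z (∑ α ∈ P.support, (coeff α P) • (l ^ (d - ∑ i, α i) * ∏ i, L i ^ α i)) =
      ∑ α ∈ P.support, coeff α P * ((ev z l) ^ (d - ∑ i, α i) * ∏ i, (ev z (L i)) ^ α i) := by
    unfold ev
    rw [map_sum]
    apply Finset.sum_congr rfl
    intro α _
    rw [smul_eval, map_mul, map_pow, map_prod]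
    simp only [map_pow]
  rw [h2]
  apply Finset.sum_congr rfl
  intro α hα
  have h3 := deg_le hP hα
  simp only [h, mul_pow]
  rw [Finset.prod_mul_distrib, Finset.prod_pow_eq_pow_sum]
  have h4 : (ev z l) ^ d = (ev z l) ^ (d - ∑ i, α i) * (ev z l) ^ (∑ i, α i) := by
    rw [← pow_add, Nat.sub_add_cancel h3]
  rw [h4]
  ring

theorem deg_til {d : ℕ} {L : Fin n → MvPolynomial (Fin n) ℂ} {l P : MvPolynomial (Fin n) ℂ}
    (hP : P.totalDegree ≤ d) (hL : ∀ i, (L i).totalDegree ≤ 1) (hl : l.totalDegree ≤ 1) :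
    (til d L l P).totalDegree ≤ d := by
  rw [← mem_restrictTotalDegree, til]
  apply Submodule.sum_mem
  intro α hα
  apply Submodule.smul_mem
  rw [mem_restrictTotalDegree]
  have h3 := deg_le hP hα
  refine (totalDegree_mul _ _).trans ?_
  have h4 : (l ^ (d - ∑ i, α i)).totalDegree ≤ d - ∑ i, α i := by
    refine (totalDegree_pow _ _).trans ?_
    exact (Nat.mul_le_mul_left _ hl).trans (by omega)
  have h5 : (∏ i, L i ^ α i).totalDegree ≤ ∑ i, α i := by
    refine (totalDegree_finsetProd _ _).trans ?_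
    apply Finset.sum_le_sum
    intro i _
    refine (totalDegree_pow _ _).trans ?_
    exact (Nat.mul_le_mul_left _ (hL i)).trans (by omega)
  omega

/-- Polynomials that agree on the unit ball are equal. -/
theorem eq_of_ball {P Q : MvPolynomial (Fin n) ℂ} (h : ∀ z ∈ Bn n, ev z P = ev z Q) :
    P = Q := by
  apply funext_set (fun _ : Fin n => Metric.ball (0 : ℂ) ((n : ℝ) + 1)⁻¹)
  · intro i
    exact infinite_of_mem_nhds 0 (Metric.ball_mem_nhds 0 (by positivity))
  · intro x hx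
    have h1 : (WithLp.toLp 2 x : E n) ∈ Bn n := by
      rw [Bn, mem_ball_zero_iff, EuclideanSpace.norm_eq, Real.sqrt_lt' one_pos]
      have h2 : ∀ i, ‖x i‖ < ((n : ℝ) + 1)⁻¹ := fun i => by
        have h3 := hx i (Set.mem_univ i)
        rwa [mem_ball_zero_iff] at h3
      have h4 : ∑ i, ‖x i‖ ^ 2 ≤ ∑ i : Fin n, (((n : ℝ) + 1)⁻¹) ^ 2 := by
        apply Finset.sum_le_sum
        intro i _
        exact pow_le_pow_left₀ (norm_nonneg _) (h2 i).le 2
      rw [Finset.sum_const, Finset.card_univ, Fintype.card_fin, nsmul_eq_mul] at h4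
      have h5 : (n : ℝ) * (((n : ℝ) + 1)⁻¹) ^ 2 < 1 ^ 2 := by
        have h6 : (0 : ℝ) ≤ n := Nat.cast_nonneg n
        rw [inv_pow, ← div_eq_mul_inv, div_lt_iff₀ (by positivity)]
        nlinarith
      exact lt_of_le_of_lt h4 h5
    exact h _ h1

end Pool.Agent.H97.RSM

open Pool.Agent.H97.RSM in
/-- Module LOW. -/
theorem Pool.Agent.H24.RSM.low (hInv : Pool.Agent.H24.RSM.InvStmt)
    (hAut : Pool.Agent.H24.RSM.AutStmt) (hFrac : Pool.Agent.H24.RSM.FracStmt) :
    Pool.Agent.H24.RSM.LowStmt := by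
  open Pool.Agent.H24.RSM in
  intro n N f γ ψ hn hγ hψ hf
  obtain ⟨M, hM, hMγ⟩ := hAut n γ hγ
  obtain ⟨A, hA, hAψ⟩ := hAut N ψ hψ
  obtain ⟨A', hA', hAA', -⟩ := hInv N A hA
  obtain ⟨hMf, hMfr⟩ := hFrac n M hM
  obtain ⟨hAf, hAfr⟩ := hFrac N A hA
  -- the polynomials
  let F : Option (Fin N) → MvPolynomial (Fin n) ℂ := fun i => i.elim f.q f.p
  let l : MvPolynomial (Fin n) ℂ := aff ((co n none) ∘ₗ M)
  let L : Fin n → MvPolynomial (Fin n) ℂ := fun i => aff ((co n (some i)) ∘ₗ M)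
  let d := f.degree
  let P : Option (Fin N) → MvPolynomial (Fin n) ℂ := fun i => til d L l (F i)
  let R : Option (Fin N) → MvPolynomial (Fin n) ℂ := fun i => comb F ((co N i) ∘ₗ A)
  let v : E n → E N × ℂ := fun z => (vec f.p z, ev z f.q)
  have hv : ∀ z i, co N i (v z) = ev z (F i) := by
    intro z i
    cases i
    · rfl
    · rfl
  have hlz : ∀ z, ev z l = (M (z, 1)).2 := fun z => ev_aff _ z
  have hLz : ∀ z i, ev z (L i) = (M (z, 1)).1 i := fun z i => ev_aff _ z
  have hRz : ∀ z i, ev z (R i) = co N i (A (v z)) := fun z i => ev_comb F _ z (v z) (hv z)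
  have hFd : ∀ i, (F i).totalDegree ≤ d := by
    intro i
    cases i with
    | none => exact le_max_right _ _
    | some i =>
      exact (Finset.le_sup (f := fun i => (f.p i).totalDegree) (Finset.mem_univ i)).trans
        (le_max_left _ _)
  have hγB : ∀ z ∈ Bn n, γ z ∈ Bn n := hγ.2.1
  have hPz : ∀ z ∈ Bn n, ∀ i, ev z (P i) = ((M (z, 1)).2) ^ d * co N i (v (γ z)) := by
    intro z hz i
    rw [hv, ← hlz]
    apply ev_til (hFd i)
    intro j
    rw [hLz, hlz, hMγ z hz]
    have h1 := (hMf z hz).1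
    simp only [frac, PiLp.smul_apply, smul_eq_mul]
    field_simp
  -- both vectors are proportional
  have hprop : ∀ z ∈ Bn n, A (v z) = (A (v z)).2 • (f.toFun (γ z), (1 : ℂ)) := by
    intro z hz
    have hq : ev z f.q ≠ 0 := f.q_ne z (by
      rw [Bn, mem_ball_zero_iff] at hz
      exact hz.le)
    have hq2 : ‖ev z f.q‖ ≠ 0 := norm_ne_zero_iff.mpr hq
    have hfz : f.toFun z ∈ Bn N := by
      rw [Bn, mem_ball_zero_iff, EuclideanSpace.norm_eq, Real.sqrt_lt' one_pos]
      have h1 : ∀ i, ‖(f.toFun z) i‖ ^ 2 = ‖ev z (f.p i)‖ ^ 2 / ‖ev z f.q‖ ^ 2 := by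
        intro i
        rw [← div_pow, ← norm_div]
        rfl
      simp only [h1]
      rw [← Finset.sum_div, div_lt_iff₀ (by positivity), one_pow, one_mul]
      apply f.ball
      rw [Bn, mem_ball_zero_iff] at hz
      exact hz
    have h1 : v z = ev z f.q • (f.toFun z, (1 : ℂ)) := by
      apply Prod.ext
      · ext i
        change ev z (f.p i) = ev z f.q * (ev z (f.p i) / ev z f.q)
        field_simp
      · change ev z f.q = ev z f.q * 1
        ring
    have h2 := hAψ (f.toFun z) hfz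
    have h3 := (hAf (f.toFun z) hfz).1
    rw [hf z hz, h2, h1, map_smul, Prod.smul_snd, smul_assoc]
    congr 1
    apply Prod.ext
    · simp only [frac, Prod.smul_fst, smul_smul]
      rw [mul_inv_cancel₀ h3, one_smul]
    · simp
  have hprop2 : ∀ z ∈ Bn n, v (γ z) = ev (γ z) f.q • (f.toFun (γ z), (1 : ℂ)) := by
    intro z hz
    have hz' := hγB z hz
    have hq : ev (γ z) f.q ≠ 0 := f.q_ne (γ z) (by
      rw [Bn, mem_ball_zero_iff] at hz'
      exact hz'.le)
    apply Prod.ext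
    · ext i
      change ev (γ z) (f.p i) = ev (γ z) f.q * (ev (γ z) (f.p i) / ev (γ z) f.q)
      field_simp
    · change ev (γ z) f.q = ev (γ z) f.q * 1
      ring
  have hmul : ∀ (z : E n) (a b : MvPolynomial (Fin n) ℂ), ev z (a * b) = ev z a * ev z b := by
    intro z a b
    unfold ev
    rw [map_mul]
  have hcross : ∀ i j, P i * R j = P j * R i := by
    intro i j
    apply eq_of_ball
    intro z hz
    rw [hmul, hmul, hPz z hz, hPz z hz, hRz, hRz, hprop z hz, hprop2 z hz]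
    simp only [map_smul, smul_eq_mul]
    ring
  have hcop : ∀ a : MvPolynomial (Fin n) ℂ, (∀ i, a ∣ R i) → IsUnit a := by
    intro a ha
    have h1 : ∀ i, F i ∈ (Ideal.span {a}).restrictScalars ℂ := by
      apply comb_mem F _ A A' hAA'
      intro i
      rw [Submodule.restrictScalars_mem, Ideal.mem_span_singleton]
      exact ha i
    have h2 : ∀ i, a ∣ F i := by
      intro i
      have h3 := h1 i
      rwa [Submodule.restrictScalars_mem, Ideal.mem_span_singleton] at h3
    exact f.lowest a (fun i => h2 (some i)) (h2 none)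
  obtain ⟨k, hk⟩ := exists_common P R hcross hcop
  have h0B : (0 : E n) ∈ Bn n := by
    rw [Bn, mem_ball_zero_iff, norm_zero]
    exact one_pos
  have hk0 : k ≠ 0 := by
    rintro rfl
    have h1 := hPz 0 h0B none
    rw [hk, zero_mul] at h1
    have h2 : ev (0 : E n) (0 : MvPolynomial (Fin n) ℂ) = 0 := by
      unfold ev
      rw [map_zero]
    rw [h2] at h1
    have h3 : (M (0, 1)).2 ≠ 0 := (hMf 0 h0B).1
    have h4 : co N none (v (γ 0)) ≠ 0 := by
      have hz' := hγB 0 h0B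
      rw [Bn, mem_ball_zero_iff] at hz'
      exact f.q_ne (γ 0) hz'.le
    exact mul_ne_zero (pow_ne_zero d h3) h4 h1.symm
  have hPd : ∀ i, (P i).totalDegree ≤ d := fun i =>
    deg_til (hFd i) (fun j => deg_aff _) (deg_aff _)
  have hadd : ∀ i, R i ≠ 0 → k.totalDegree + (R i).totalDegree ≤ d := by
    intro i hi
    rw [← totalDegree_mul_of_isDomain hk0 hi, ← hk]
    exact hPd i
  have hkd : k.totalDegree = 0 := by
    by_contra hne
    have h1 : ∀ i, R i ∈ restrictTotalDegree (Fin n) ℂ (d - 1) := by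
      intro i
      rw [mem_restrictTotalDegree]
      by_cases hi : R i = 0
      · rw [hi, totalDegree_zero]
        exact Nat.zero_le _
      · have := hadd i hi
        omega
    have h2 : ∀ i, F i ∈ restrictTotalDegree (Fin n) ℂ (d - 1) := comb_mem F _ A A' hAA' h1
    have h3 : d ≤ d - 1 := by
      apply max_le
      · apply Finset.sup_le
        intro i _
        exact (mem_restrictTotalDegree _ _ _).mp (h2 (some i))
      · exact (mem_restrictTotalDegree _ _ _).mp (h2 none)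
    have h4 : ∃ i, R i ≠ 0 := by
      by_contra hcon
      have h5 : ∀ i, R i = 0 := fun i => by
        by_contra h6
        exact hcon ⟨i, h6⟩
      exact not_isUnit_zero (hcop 0 fun i => by rw [h5 i])
    obtain ⟨i, hi⟩ := h4
    have := hadd i hi
    omega
  obtain ⟨c, hc⟩ : ∃ c, k = C c := ⟨_, totalDegree_eq_zero_iff_eq_C.mp hkd⟩
  have hc0 : c ≠ 0 := by
    rintro rfl
    exact hk0 (by rw [hc, map_zero])
  refine ⟨‖c‖ ^ 2, by positivity, fun z hz => ?_⟩
  have hvec : ((M (z, 1)).2) ^ d • v (γ z) = c • A (v z) := by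
    have h1 : ∀ i, ((M (z, 1)).2) ^ d * co N i (v (γ z)) = c * co N i (A (v z)) := by
      intro i
      rw [← hPz z hz, hk, hmul, hRz, hc]
      congr 1
      unfold ev
      rw [eval_C]
    apply Prod.ext
    · ext i
      exact h1 (some i)
    · exact h1 none
  have hdef : ∀ w, f.defect w = -(‖(v w).1‖ ^ 2 - ‖(v w).2‖ ^ 2) := by
    intro w
    rw [EuclideanSpace.norm_sq_eq]
    change ‖ev w f.q‖ ^ 2 - ∑ i, ‖ev w (f.p i)‖ ^ 2 =
      -(∑ i, ‖ev w (f.p i)‖ ^ 2 - ‖ev w f.q‖ ^ 2)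
    ring
  have hJ : (‖(M (z, 1)).2‖ ^ 2) ^ d * f.defect (γ z) = ‖c‖ ^ 2 * f.defect z := by
    have h1 := congrArg (fun x : E N × ℂ => ‖x.1‖ ^ 2 - ‖x.2‖ ^ 2) hvec
    simp only [Prod.smul_fst, Prod.smul_snd, norm_smul, norm_pow] at h1
    have h2 := hA (v z)
    rw [hdef, hdef]
    have h3 : (‖(M (z, 1)).2‖ ^ 2) ^ d = (‖(M (z, 1)).2‖ ^ d) ^ 2 := by ring
    rw [h3]
    linear_combination -h1 - ‖c‖ ^ 2 * h2
  have hM2 : 0 < ‖(M (z, 1)).2‖ ^ 2 := by
    have := norm_pos_iff.mpr (hMf z hz).1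
    positivity
  have hz1 : 0 < 1 - ‖z‖ ^ 2 := by
    rw [Bn, mem_ball_zero_iff] at hz
    have := norm_nonneg z
    nlinarith
  rw [hMγ z hz, (hMf z hz).2, ← hMγ z hz, div_pow, div_div_eq_mul_div, mul_comm (f.defect (γ z)),
    hJ, mul_div_assoc]
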